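import Mathlib

namespace Pool.Agent.Results.MP_378045_ag.Vamos

open MvPolynomial Matrix Finset
open scoped ComplexOrder

/-- the mixed determinant `η(A_1, …, A_m)`: an ordered partition `(S_1, …, S_m)` of the index set
is given by the map `φ` with `S_j = φ⁻¹(j)` -/
noncomputable def eta {R : Type} [CommRing R] {n m : ℕ} (A : Fin m → Matrix (Fin n) (Fin n) R) :
    R :=
  ∑ φ : Fin n → Fin m, ∏ j : Fin m,
    ((A j).submatrix (Subtype.val : {a // φ a = j} → Fin n) Subtype.val).det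

/-- the pencil `∑ k, A_k z_k` as a matrix of polynomials -/
noncomputable def pencil {n l : ℕ} (A : Fin l → Matrix (Fin n) (Fin n) ℂ) :
    Matrix (Fin n) (Fin n) (MvPolynomial (Fin l) ℂ) :=
  Matrix.of fun a b => ∑ k, C (A k a b) * X k

def RealStable {l : ℕ} (f : MvPolynomial (Fin l) ℝ) : Prop :=
  f ≠ 0 ∧ ∀ z : Fin l → ℂ, (∀ k, 0 < (z k).im) → aeval z f ≠ 0

/-- the specialized Vamos polynomial, as a function -/
noncomputable def fv (z : Fin 4 → ℂ) : ℂ := z 0 ^ 2 * z 1 ^ 2 + 4 * (z 0 + z 1 + z 2 + z 3) *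
  (z 0 * z 1 * z 2 + z 0 * z 1 * z 3 + z 0 * z 2 * z 3 + z 1 * z 2 * z 3)

noncomputable def q00 (z : Fin 4 → ℂ) : ℂ := z 2 * z 3 ^ 2 + z 2 ^ 2 * z 3 + (1/2) * z 1 * z 3 ^ 2 + (2) * z 1 * z 2 * z 3 + (1/2) * z 1 * z 2 ^ 2 + (1/2) * z 1 ^ 2 * z 3 + (1/2) * z 1 ^ 2 * z 2 + z 0 * z 2 * z 3 + (1/2) * z 0 * z 1 * z 3 + (1/2) * z 0 * z 1 * z 2 + (1/8) * z 0 * z 1 ^ 2
noncomputable def q01 (z : Fin 4 → ℂ) : ℂ := z 1 * z 3 ^ 2 + z 1 * z 2 * z 3 + z 1 ^ 2 * z 3 + z 0 * z 1 * z 3 + (1/4) * z 0 * z 1 * z 2 + (1/4) * z 0 * z 1 ^ 2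
noncomputable def q02 (z : Fin 4 → ℂ) : ℂ := z 1 * z 2 * z 3 + z 1 * z 2 ^ 2 + z 1 ^ 2 * z 2 + (1/4) * z 0 * z 1 * z 3 + z 0 * z 1 * z 2 + (1/4) * z 0 * z 1 ^ 2
noncomputable def q03 (z : Fin 4 → ℂ) : ℂ := z 0 * z 1 * z 3 + (3/7) * z 0 * z 1 ^ 2
noncomputable def q04 (z : Fin 4 → ℂ) : ℂ := z 0 * z 1 * z 2 + (3/7) * z 0 * z 1 ^ 2
noncomputable def q05 (z : Fin 4 → ℂ) : ℂ := z 0 * z 1 ^ 2
noncomputable def q10 (z : Fin 4 → ℂ) : ℂ := z 2 * z 3 ^ 2 + z 2 ^ 2 * z 3 + (1/2) * z 0 * z 3 ^ 2 + (2) * z 0 * z 2 * z 3 + (1/2) * z 0 * z 2 ^ 2 + (1/2) * z 0 ^ 2 * z 3 + (1/2) * z 0 ^ 2 * z 2 + z 1 * z 2 * z 3 + (1/2) * z 1 * z 0 * z 3 + (1/2) * z 1 * z 0 * z 2 + (1/8) * z 1 * z 0 ^ 2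
noncomputable def q11 (z : Fin 4 → ℂ) : ℂ := z 0 * z 3 ^ 2 + z 0 * z 2 * z 3 + z 0 ^ 2 * z 3 + z 1 * z 0 * z 3 + (1/4) * z 1 * z 0 * z 2 + (1/4) * z 1 * z 0 ^ 2
noncomputable def q12 (z : Fin 4 → ℂ) : ℂ := z 0 * z 2 * z 3 + z 0 * z 2 ^ 2 + z 0 ^ 2 * z 2 + (1/4) * z 1 * z 0 * z 3 + z 1 * z 0 * z 2 + (1/4) * z 1 * z 0 ^ 2
noncomputable def q13 (z : Fin 4 → ℂ) : ℂ := z 1 * z 0 * z 3 + (3/7) * z 1 * z 0 ^ 2
noncomputable def q14 (z : Fin 4 → ℂ) : ℂ := z 1 * z 0 * z 2 + (3/7) * z 1 * z 0 ^ 2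
noncomputable def q15 (z : Fin 4 → ℂ) : ℂ := z 1 * z 0 ^ 2
noncomputable def q20 (z : Fin 4 → ℂ) : ℂ := z 1 * z 3 ^ 2 + z 1 * z 2 * z 3 + z 1 ^ 2 * z 3 + (3/2) * z 0 * z 1 * z 3 + (1/2) * z 0 * z 1 * z 2 + (1/2) * z 0 * z 1 ^ 2 + (3/8) * z 0 ^ 2 * z 1
noncomputable def q21 (z : Fin 4 → ℂ) : ℂ := z 0 * z 3 ^ 2 + z 0 * z 2 * z 3 + (3/2) * z 0 * z 1 * z 3 + (1/2) * z 0 * z 1 * z 2 + (3/8) * z 0 * z 1 ^ 2 + z 0 ^ 2 * z 3 + (1/2) * z 0 ^ 2 * z 1
noncomputable def q22 (z : Fin 4 → ℂ) : ℂ := z 0 * z 1 * z 3 + (1/2) * z 0 * z 1 * z 2 + (5/8) * z 0 * z 1 ^ 2 + (5/8) * z 0 ^ 2 * z 1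
noncomputable def q23 (z : Fin 4 → ℂ) : ℂ := z 0 * z 1 * z 2 + (5/12) * z 0 * z 1 ^ 2 + (5/12) * z 0 ^ 2 * z 1
noncomputable def q24 (z : Fin 4 → ℂ) : ℂ := z 0 * z 1 ^ 2 + (-2/19) * z 0 ^ 2 * z 1
noncomputable def q25 (z : Fin 4 → ℂ) : ℂ := z 0 ^ 2 * z 1
noncomputable def q30 (z : Fin 4 → ℂ) : ℂ := z 1 * z 2 ^ 2 + z 1 * z 3 * z 2 + z 1 ^ 2 * z 2 + (3/2) * z 0 * z 1 * z 2 + (1/2) * z 0 * z 1 * z 3 + (1/2) * z 0 * z 1 ^ 2 + (3/8) * z 0 ^ 2 * z 1
noncomputable def q31 (z : Fin 4 → ℂ) : ℂ := z 0 * z 2 ^ 2 + z 0 * z 3 * z 2 + (3/2) * z 0 * z 1 * z 2 + (1/2) * z 0 * z 1 * z 3 + (3/8) * z 0 * z 1 ^ 2 + z 0 ^ 2 * z 2 + (1/2) * z 0 ^ 2 * z 1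
noncomputable def q32 (z : Fin 4 → ℂ) : ℂ := z 0 * z 1 * z 2 + (1/2) * z 0 * z 1 * z 3 + (5/8) * z 0 * z 1 ^ 2 + (5/8) * z 0 ^ 2 * z 1
noncomputable def q33 (z : Fin 4 → ℂ) : ℂ := z 0 * z 1 * z 3 + (5/12) * z 0 * z 1 ^ 2 + (5/12) * z 0 ^ 2 * z 1
noncomputable def q34 (z : Fin 4 → ℂ) : ℂ := z 0 * z 1 ^ 2 + (-2/19) * z 0 ^ 2 * z 1
noncomputable def q35 (z : Fin 4 → ℂ) : ℂ := z 0 ^ 2 * z 1
noncomputable def gg (z : Fin 4 → ℂ) : ℂ := (16) * z 2 * z 3 ^ 2 + (16) * z 2 ^ 2 * z 3 + (8) * z 1 * z 3 ^ 2 + (32) * z 1 * z 2 * z 3 + (8) * z 1 * z 2 ^ 2 + (8) * z 1 ^ 2 * z 3 + (8) * z 1 ^ 2 * z 2 + (8) * z 0 * z 3 ^ 2 + (32) * z 0 * z 2 * z 3 + (8) * z 0 * z 2 ^ 2 + (24) * z 0 * z 1 * z 3 + (24) * z 0 * z 1 * z 2 + (8) * z 0 * z 1 ^ 2 + (8) * z 0 ^ 2 * z 3 + (8) * z 0 ^ 2 * z 2 + (8) * z 0 ^ 2 * z 1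
noncomputable def S0 (w z : Fin 4 → ℂ) : ℂ := (16) * (q00 w * q00 z) + (4) * (q01 w * q01 z) + (4) * (q02 w * q02 z) + (7/4) * (q03 w * q03 z) + (7/4) * (q04 w * q04 z) + (17/28) * (q05 w * q05 z)
noncomputable def T0 (z : Fin 4 → ℂ) : ℝ := (16) * Complex.normSq (q00 z) + (4) * Complex.normSq (q01 z) + (4) * Complex.normSq (q02 z) + (7/4) * Complex.normSq (q03 z) + (7/4) * Complex.normSq (q04 z) + (17/28) * Complex.normSq (q05 z)
noncomputable def S1 (w z : Fin 4 → ℂ) : ℂ := (16) * (q10 w * q10 z) + (4) * (q11 w * q11 z) + (4) * (q12 w * q12 z) + (7/4) * (q13 w * q13 z) + (7/4) * (q14 w * q14 z) + (17/28) * (q15 w * q15 z)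
noncomputable def T1 (z : Fin 4 → ℂ) : ℝ := (16) * Complex.normSq (q10 z) + (4) * Complex.normSq (q11 z) + (4) * Complex.normSq (q12 z) + (7/4) * Complex.normSq (q13 z) + (7/4) * Complex.normSq (q14 z) + (17/28) * Complex.normSq (q15 z)
noncomputable def S2 (w z : Fin 4 → ℂ) : ℂ := (8) * (q20 w * q20 z) + (8) * (q21 w * q21 z) + (4) * (q22 w * q22 z) + (3) * (q23 w * q23 z) + (19/24) * (q24 w * q24 z) + (119/152) * (q25 w * q25 z)
noncomputable def T2 (z : Fin 4 → ℂ) : ℝ := (8) * Complex.normSq (q20 z) + (8) * Complex.normSq (q21 z) + (4) * Complex.normSq (q22 z) + (3) * Complex.normSq (q23 z) + (19/24) * Complex.normSq (q24 z) + (119/152) * Complex.normSq (q25 z)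
noncomputable def S3 (w z : Fin 4 → ℂ) : ℂ := (8) * (q30 w * q30 z) + (8) * (q31 w * q31 z) + (4) * (q32 w * q32 z) + (3) * (q33 w * q33 z) + (19/24) * (q34 w * q34 z) + (119/152) * (q35 w * q35 z)
noncomputable def T3 (z : Fin 4 → ℂ) : ℝ := (8) * Complex.normSq (q30 z) + (8) * Complex.normSq (q31 z) + (4) * Complex.normSq (q32 z) + (3) * Complex.normSq (q33 z) + (19/24) * Complex.normSq (q34 z) + (119/152) * Complex.normSq (q35 z)
lemma ident (w z : Fin 4 → ℂ) :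
    z 0 * S0 w z + z 1 * S1 w z + z 2 * S2 w z + z 3 * S3 w z = 1 / 4 * fv z * gg w := by
  simp only [S0, S1, S2, S3, fv, gg, q00, q01, q02, q03, q04, q05, q10, q11, q12, q13, q14, q15, q20, q21, q22, q23, q24, q25, q30, q31, q32, q33, q34, q35]
  ring

lemma S0_conj (z : Fin 4 → ℂ) : S0 (fun k => (starRingEnd ℂ) (z k)) z = (T0 z : ℂ) := by
  simp only [S0, T0]
  push_cast
  simp only [Complex.normSq_eq_conj_mul_self]
  simp only [q00, q01, q02, q03, q04, q05, map_add, map_mul, map_pow, map_div₀, map_ofNat, map_one]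

lemma T0_nonneg (z : Fin 4 → ℂ) : 0 ≤ T0 z := by
  unfold T0
  linarith [Complex.normSq_nonneg (q00 z), Complex.normSq_nonneg (q01 z), Complex.normSq_nonneg (q02 z), Complex.normSq_nonneg (q03 z), Complex.normSq_nonneg (q04 z), Complex.normSq_nonneg (q05 z)]

lemma S1_conj (z : Fin 4 → ℂ) : S1 (fun k => (starRingEnd ℂ) (z k)) z = (T1 z : ℂ) := by
  simp only [S1, T1]
  push_cast
  simp only [Complex.normSq_eq_conj_mul_self]
  simp only [q10, q11, q12, q13, q14, q15, map_add, map_mul, map_pow, map_div₀, map_ofNat, map_one]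

lemma T1_nonneg (z : Fin 4 → ℂ) : 0 ≤ T1 z := by
  unfold T1
  linarith [Complex.normSq_nonneg (q10 z), Complex.normSq_nonneg (q11 z), Complex.normSq_nonneg (q12 z), Complex.normSq_nonneg (q13 z), Complex.normSq_nonneg (q14 z), Complex.normSq_nonneg (q15 z)]

lemma S2_conj (z : Fin 4 → ℂ) : S2 (fun k => (starRingEnd ℂ) (z k)) z = (T2 z : ℂ) := by
  simp only [S2, T2]
  push_cast
  simp only [Complex.normSq_eq_conj_mul_self]
  simp only [q20, q21, q22, q23, q24, q25, map_add, map_mul, map_pow, map_div₀, map_neg, map_ofNat, map_one]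

lemma T2_nonneg (z : Fin 4 → ℂ) : 0 ≤ T2 z := by
  unfold T2
  linarith [Complex.normSq_nonneg (q20 z), Complex.normSq_nonneg (q21 z), Complex.normSq_nonneg (q22 z), Complex.normSq_nonneg (q23 z), Complex.normSq_nonneg (q24 z), Complex.normSq_nonneg (q25 z)]

lemma S3_conj (z : Fin 4 → ℂ) : S3 (fun k => (starRingEnd ℂ) (z k)) z = (T3 z : ℂ) := by
  simp only [S3, T3]
  push_cast
  simp only [Complex.normSq_eq_conj_mul_self]
  simp only [q30, q31, q32, q33, q34, q35, map_add, map_mul, map_pow, map_div₀, map_neg, map_ofNat, map_one]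

lemma T3_nonneg (z : Fin 4 → ℂ) : 0 ≤ T3 z := by
  unfold T3
  linarith [Complex.normSq_nonneg (q30 z), Complex.normSq_nonneg (q31 z), Complex.normSq_nonneg (q32 z), Complex.normSq_nonneg (q33 z), Complex.normSq_nonneg (q34 z), Complex.normSq_nonneg (q35 z)]


lemma fv_ne (z : Fin 4 → ℂ) (hz : ∀ k, 0 < (z k).im) : fv z ≠ 0 := by
  intro h0
  have h := ident (fun k => (starRingEnd ℂ) (z k)) z
  rw [S0_conj, S1_conj, S2_conj, S3_conj, h0] at h
  have h2 := congrArg Complex.im h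
  simp only [Complex.add_im, Complex.mul_im, Complex.ofReal_re, Complex.ofReal_im, mul_zero,
    zero_mul, zero_add, Complex.zero_im] at h2
  have a0 := mul_nonneg (hz 0).le (T0_nonneg z)
  have a1 := mul_nonneg (hz 1).le (T1_nonneg z)
  have a2 := mul_nonneg (hz 2).le (T2_nonneg z)
  have a3 := mul_nonneg (hz 3).le (T3_nonneg z)
  have z0 : z 0 ≠ 0 := fun e => by have := hz 0; rw [e] at this; simp at this
  have z1 : z 1 ≠ 0 := fun e => by have := hz 1; rw [e] at this; simp at this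
  have hq : 0 < Complex.normSq (q05 z) := by
    apply Complex.normSq_pos.mpr
    unfold q05
    exact mul_ne_zero z0 (pow_ne_zero _ z1)
  have hT : 0 < T0 z := by
    unfold T0
    linarith [Complex.normSq_nonneg (q00 z), Complex.normSq_nonneg (q01 z),
      Complex.normSq_nonneg (q02 z), Complex.normSq_nonneg (q03 z), Complex.normSq_nonneg (q04 z)]
  have := mul_pos (hz 0) hT
  linarith

section Avg
variable {n m : ℕ}

/-- `∑ j, D_j L_j D_j` -/
def Mx {R : Type} [CommRing R] (L : Fin m → Matrix (Fin n) (Fin n) R) (D : Fin m × Fin n → R) :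
    Matrix (Fin n) (Fin n) R :=
  Matrix.of fun a b => ∑ j, D (j, a) * L j a b * D (j, b)

def blk (L : Fin m → Matrix (Fin n) (Fin n) ℂ) (φ : Fin n → Fin m) : Matrix (Fin n) (Fin n) ℂ :=
  Matrix.of fun a b => if φ a = φ b then L (φ a) a b else 0

lemma eta_eq (L : Fin m → Matrix (Fin n) (Fin n) ℂ) : eta L = ∑ φ, (blk L φ).det := by
  unfold eta
  apply Finset.sum_congr rfl
  intro φ _
  have h : (blk L φ).BlockTriangular φ := by
    intro a b hab
    simp only [blk, Matrix.of_apply]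
    rw [if_neg (ne_of_gt hab)]
  rw [h.det_fintype]
  apply Finset.prod_congr rfl
  intro j _
  congr 1
  ext a b
  simp only [Matrix.submatrix_apply, Matrix.toSquareBlock_def, blk, Matrix.of_apply]
  rw [if_pos (a.2.trans b.2.symm), a.2]

lemma blk_eq (L : Fin m → Matrix (Fin n) (Fin n) ℂ) (φ : Fin n → Fin m) :
    blk L φ = Mx L (fun x => if φ x.2 = x.1 then 1 else 0) := by
  ext a b
  simp only [blk, Mx, Matrix.of_apply]
  rw [Finset.sum_eq_single (φ a)]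
  · by_cases h : φ a = φ b
    · simp [h]
    · simp [h, Ne.symm h]
  · intro j _ hj
    simp [Ne.symm hj]
  · simp

lemma Mx_psd (L : Fin m → Matrix (Fin n) (Fin n) ℂ) (hL : ∀ j, (L j).PosSemidef)
    (D : Fin m × Fin n → ℂ) (hD : ∀ x, star (D x) = D x) : (Mx L D).PosSemidef := by
  have : Mx L D = ∑ j, (diagonal fun a => D (j, a))ᴴ * L j * diagonal fun a => D (j, a) := by
    ext a b
    simp only [Mx, Matrix.of_apply, Matrix.sum_apply, Matrix.diagonal_conjTranspose,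
      Matrix.mul_diagonal, Matrix.diagonal_mul, Pi.star_apply, hD]
  rw [this]
  exact Matrix.posSemidef_sum _ fun j _ => (hL j).conjTranspose_mul_mul_same _

def sg (b : Bool) : ℂ := if b then 1 else -1

lemma sg_sq (b : Bool) : sg b * sg b = 1 := by cases b <;> simp [sg]
lemma sg_not (b : Bool) : sg (!b) = - sg b := by cases b <;> simp [sg]
lemma sg_star (b : Bool) : star (sg b) = sg b := by cases b <;> simp [sg]

lemma sign_sum (φ : Fin n → Fin m) (σ : Equiv.Perm (Fin n)) :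
    ∑ ε : Fin m × Fin n → Bool, ∏ a, (sg (ε (φ a, σ a)) * sg (ε (φ a, a))) =
      if ∀ a, φ (σ a) = φ a then (Fintype.card (Fin m × Fin n → Bool) : ℂ) else 0 := by
  split_ifs with h
  · have : ∀ ε : Fin m × Fin n → Bool, ∏ a, (sg (ε (φ a, σ a)) * sg (ε (φ a, a))) = 1 := by
      intro ε
      rw [Finset.prod_mul_distrib]
      have e : ∏ a, sg (ε (φ a, σ a)) = ∏ a, sg (ε (φ a, a)) := by
        rw [← Equiv.prod_comp σ (fun a => sg (ε (φ a, a)))]
        simp only [h]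
      rw [e, ← Finset.prod_mul_distrib]
      simp only [sg_sq, Finset.prod_const_one]
    simp only [this]
    simp
  · push Not at h
    obtain ⟨a0, ha0⟩ := h
    let fl : (Fin m × Fin n → Bool) → (Fin m × Fin n → Bool) := fun ε =>
      Function.update ε (φ a0, σ a0) (!ε (φ a0, σ a0))
    have key : ∀ ε, ∏ a, (sg (fl ε (φ a, σ a)) * sg (fl ε (φ a, a))) =
        - ∏ a, (sg (ε (φ a, σ a)) * sg (ε (φ a, a))) := by
      intro ε
      have h2 : ∀ a, fl ε (φ a, a) = ε (φ a, a) := by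
        intro a
        apply Function.update_of_ne
        intro e
        have e1 := congrArg Prod.fst e
        have e2 := congrArg Prod.snd e
        simp only at e1 e2
        apply ha0
        rw [← e2, e1]
      simp only [h2]
      rw [← Finset.mul_prod_erase _ _ (Finset.mem_univ a0),
        ← Finset.mul_prod_erase _ _ (Finset.mem_univ a0)]
      have h3 : ∏ a ∈ Finset.univ.erase a0, (sg (fl ε (φ a, σ a)) * sg (ε (φ a, a))) =
          ∏ a ∈ Finset.univ.erase a0, (sg (ε (φ a, σ a)) * sg (ε (φ a, a))) := by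
        apply Finset.prod_congr rfl
        intro a ha
        have : fl ε (φ a, σ a) = ε (φ a, σ a) := by
          apply Function.update_of_ne
          intro e
          exact (Finset.ne_of_mem_erase ha) (σ.injective (congrArg Prod.snd e))
        rw [this]
      rw [h3]
      have h4 : fl ε (φ a0, σ a0) = !ε (φ a0, σ a0) := Function.update_self _ _ _
      rw [h4, sg_not]
      ring
    have inv : Function.Involutive fl := by
      intro ε
      funext x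
      by_cases hx : x = (φ a0, σ a0)
      · subst hx; simp [fl]
      · simp [fl, Function.update_of_ne hx]
    have h5 := Equiv.sum_comp (inv.toPerm fl)
      (fun ε => ∏ a, (sg (ε (φ a, σ a)) * sg (ε (φ a, a))))
    simp only [Function.Involutive.coe_toPerm, key, Finset.sum_neg_distrib] at h5
    linear_combination (-1 / 2 : ℂ) * h5

lemma avg (L : Fin m → Matrix (Fin n) (Fin n) ℂ) (D : Fin m × Fin n → ℂ) :
    ∑ ε : Fin m × Fin n → Bool, (Mx L (fun x => sg (ε x) * D x)).det =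
      (Fintype.card (Fin m × Fin n → Bool) : ℂ) *
        ∑ φ : Fin n → Fin m, (∏ a, D (φ a, a) ^ 2) * (blk L φ).det := by
  have e1 : ∀ ε : Fin m × Fin n → Bool, (Mx L (fun x => sg (ε x) * D x)).det =
      ∑ φ : Fin n → Fin m, ∑ σ : Equiv.Perm (Fin n), ((Equiv.Perm.sign σ : ℤ) : ℂ) *
        (∏ a, (D (φ a, σ a) * L (φ a) (σ a) a * D (φ a, a))) *
          ∏ a, (sg (ε (φ a, σ a)) * sg (ε (φ a, a))) := by
    intro ε
    rw [Matrix.det_apply', Finset.sum_comm]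
    apply Finset.sum_congr rfl
    intro σ _
    simp only [Mx, Matrix.of_apply]
    rw [Finset.prod_univ_sum, Fintype.piFinset_univ, Finset.mul_sum]
    apply Finset.sum_congr rfl
    intro φ _
    rw [mul_assoc, ← Finset.prod_mul_distrib]
    congr 1
    apply Finset.prod_congr rfl
    intro a _
    ring
  simp only [e1]
  rw [Finset.sum_comm, Finset.mul_sum]
  apply Finset.sum_congr rfl
  intro φ _
  rw [Finset.sum_comm, Matrix.det_apply', Finset.mul_sum, Finset.mul_sum]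
  apply Finset.sum_congr rfl
  intro σ _
  rw [← Finset.mul_sum, sign_sum]
  split_ifs with h
  · have e2 : ∏ a, (D (φ a, σ a) * L (φ a) (σ a) a * D (φ a, a)) =
        (∏ a, D (φ a, a) ^ 2) * ∏ a, blk L φ (σ a) a := by
      have e3 : ∏ a, D (φ a, σ a) = ∏ a, D (φ a, a) := by
        rw [← Equiv.prod_comp σ (fun a => D (φ a, a))]
        simp only [h]
      simp only [blk, Matrix.of_apply, h, if_true, Finset.prod_mul_distrib, e3, pow_two]
      ring
    rw [e2]; ring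
  · push Not at h
    obtain ⟨a0, ha0⟩ := h
    have : ∏ a, blk L φ (σ a) a = 0 :=
      Finset.prod_eq_zero (Finset.mem_univ a0) (by simp [blk, ha0])
    rw [this]; ring

lemma vanish (L : Fin m → Matrix (Fin n) (Fin n) ℂ) (hL : ∀ j, (L j).PosSemidef)
    (h0 : eta L = 0) (D : Fin m × Fin n → ℂ) (hD : ∀ x, star (D x) = D x) : (Mx L D).det = 0 := by
  rw [eta_eq] at h0
  have h1 : ∀ φ, (blk L φ).det = 0 := by
    intro φ
    refine (Finset.sum_eq_zero_iff_of_nonneg ?_).mp h0 φ (Finset.mem_univ _)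
    intro φ _
    rw [blk_eq]
    refine (Mx_psd L hL _ ?_).det_nonneg
    intro x; split_ifs <;> simp
  have h2 := avg L D
  simp only [h1, mul_zero, Finset.sum_const_zero] at h2
  have h3 := (Finset.sum_eq_zero_iff_of_nonneg (fun ε _ => (Mx_psd L hL
    (fun x => sg (ε x) * D x) (fun x => by rw [star_mul', sg_star, hD])).det_nonneg)).mp h2
    (fun _ => true) (Finset.mem_univ _)
  simpa [sg] using h3

lemma avg1 (L : Fin m → Matrix (Fin n) (Fin n) ℂ) :
    ∑ ε : Fin m × Fin n → Bool, (Mx L (fun x => sg (ε x))).det =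
      (Fintype.card (Fin m × Fin n → Bool) : ℂ) * eta L := by
  have := avg L (fun _ => 1)
  simpa [eta_eq] using this

noncomputable def PD (L : Fin m → Matrix (Fin n) (Fin n) ℂ) : MvPolynomial (Fin m × Fin n) ℂ :=
  (Mx (fun j => (L j).map C) X).det

lemma eval_PD (L : Fin m → Matrix (Fin n) (Fin n) ℂ) (D : Fin m × Fin n → ℂ) :
    eval D (PD L) = (Mx L D).det := by
  unfold PD
  rw [RingHom.map_det]
  congr 1
  ext a b
  simp [Mx]

lemma PD_ne (L1 L2 L3 : Fin m → Matrix (Fin n) (Fin n) ℂ) (a b c : ℂ)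
    (h : a * eta L1 + b * eta L2 + c * eta L3 ≠ 0) :
    C a * PD L1 + C b * PD L2 + C c * PD L3 ≠ 0 := by
  intro h0
  apply h
  have h1 : ∀ ε : Fin m × Fin n → Bool, a * (Mx L1 (fun x => sg (ε x))).det +
      b * (Mx L2 (fun x => sg (ε x))).det + c * (Mx L3 (fun x => sg (ε x))).det = 0 := by
    intro ε
    have := congrArg (eval (fun x => sg (ε x))) h0
    simpa [eval_PD] using this
  have h2 : ∑ ε : Fin m × Fin n → Bool, (a * (Mx L1 (fun x => sg (ε x))).det +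
      b * (Mx L2 (fun x => sg (ε x))).det + c * (Mx L3 (fun x => sg (ε x))).det) = 0 :=
    Finset.sum_eq_zero fun ε _ => h1 ε
  simp only [Finset.sum_add_distrib, ← Finset.mul_sum, avg1] at h2
  have h3 : (Fintype.card (Fin m × Fin n → Bool) : ℂ) ≠ 0 := by
    exact_mod_cast Fintype.card_ne_zero
  apply mul_left_cancel₀ h3
  linear_combination h2

end Avg

section Lin

abbrev M4 := Matrix (Fin 4) (Fin 4) ℂ

lemma ker_pair {A B : M4} (hA : A.PosSemidef) (hB : B.PosSemidef) (h : (A + B).det = 0) :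
    ∃ v : Fin 4 → ℂ, v ≠ 0 ∧ A *ᵥ v = 0 ∧ B *ᵥ v = 0 := by
  obtain ⟨v, hv, h0⟩ := Matrix.exists_mulVec_eq_zero_iff.mpr h
  have h1 : star v ⬝ᵥ A *ᵥ v + star v ⬝ᵥ B *ᵥ v = 0 := by
    rw [← dotProduct_add, ← Matrix.add_mulVec, h0, dotProduct_zero]
  have a := hA.dotProduct_mulVec_nonneg v
  have b := hB.dotProduct_mulVec_nonneg v
  have h2 := (add_eq_zero_iff_of_nonneg a b).mp h1
  exact ⟨v, hv, (hA.dotProduct_mulVec_zero_iff v).mp h2.1,
    (hB.dotProduct_mulVec_zero_iff v).mp h2.2⟩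

lemma triv {A : M4} (h : A.det ≠ 0) {v : Fin 4 → ℂ} (hv : A *ᵥ v = 0) : v = 0 := by
  by_contra h0
  exact h (Matrix.exists_mulVec_eq_zero_iff.mp ⟨v, h0, hv⟩)

lemma second_diff (Y B : M4) (v : Fin 3 → Fin 4 → ℂ) (hv : LinearIndependent ℂ v)
    (hB : ∀ i, B *ᵥ v i = 0) :
    (Y + (2 : ℂ) • B).det + (-2) * (Y + (1 : ℂ) • B).det + (Y + (0 : ℂ) • B).det = 0 := by
  obtain ⟨w, hw⟩ := exists_linearIndependent_cons_of_lt_finrank hv (by simp)
  let V : M4 := Matrix.of fun a i => (Fin.cons w v : Fin 4 → Fin 4 → ℂ) i a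
  have hV : IsUnit V := Matrix.linearIndependent_cols_iff_isUnit.mp hw
  have hd : V.det ≠ 0 := ((Matrix.isUnit_iff_isUnit_det V).mp hV).ne_zero
  have key : ∀ t : ℂ, (Y + t • B) * V = (Y * V).updateCol 0 (Y *ᵥ w + t • (B *ᵥ w)) := by
    intro t
    ext a i
    refine Fin.cases ?_ (fun i => ?_) i
    · simp [Matrix.mul_apply, V, Matrix.mulVec, dotProduct, add_mul, Finset.sum_add_distrib,
        Finset.mul_sum, mul_assoc]
    · rw [Matrix.updateCol_ne (Fin.succ_ne_zero i), Matrix.add_mul, Matrix.add_apply,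
        Matrix.smul_mul, Matrix.smul_apply]
      have : (B * V) a i.succ = (B *ᵥ v i) a := by
        simp [Matrix.mul_apply, V, Matrix.mulVec, dotProduct]
      rw [this, hB]; simp
  have k2 : ∀ t : ℂ, (Y + t • B).det * V.det = ((Y * V).updateCol 0 (Y *ᵥ w)).det +
      t * ((Y * V).updateCol 0 (B *ᵥ w)).det := by
    intro t
    rw [← Matrix.det_mul, key, Matrix.det_updateCol_add, Matrix.det_updateCol_smul]
  apply mul_right_cancel₀ hd
  linear_combination k2 2 - 2 * k2 1 + k2 0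

lemma dep {B0 B1 : M4} (h01 : (B0 + B1).det ≠ 0) {x y u : Fin 4 → ℂ} (hx : x ≠ 0) (hy : y ≠ 0)
    (h0 : B0 *ᵥ x = 0) (h1 : B1 *ᵥ y = 0) (x1 : B1 *ᵥ x = 0 → x = 0) (y0 : B0 *ᵥ y = 0 → y = 0)
    (h : ¬ LinearIndependent ℂ ![x, y, u]) : ∃ a b : ℂ, u = a • x + b • y := by
  rw [Fintype.not_linearIndependent_iff] at h
  obtain ⟨g, hg, i, hi⟩ := h
  simp only [Fin.sum_univ_three, Matrix.cons_val_zero, Matrix.cons_val_one, Matrix.cons_val] at hg
  by_cases h2 : g 2 = 0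
  · exfalso
    rw [h2, zero_smul, add_zero] at hg
    have e : g 0 • x = -(g 1 • y) := eq_neg_of_add_eq_zero_left hg
    have a0 : g 0 = 0 := by
      by_contra hc
      apply hx
      apply x1
      have : g 0 • (B1 *ᵥ x) = 0 := by
        rw [← Matrix.mulVec_smul, e, Matrix.mulVec_neg, Matrix.mulVec_smul, h1]; simp
      exact (smul_eq_zero.mp this).resolve_left hc
    have a1 : g 1 = 0 := by
      rw [a0, zero_smul, zero_add] at hg
      exact (smul_eq_zero.mp hg).resolve_right hy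
    fin_cases i <;> simp_all
  · refine ⟨-(g 0 / g 2), -(g 1 / g 2), ?_⟩
    have : g 2 • u = -(g 0 • x + g 1 • y) := eq_neg_of_add_eq_zero_right hg
    have e : u = (g 2)⁻¹ • (g 2 • u) := by rw [smul_smul, inv_mul_cancel₀ h2, one_smul]
    rw [e, this]
    ext k
    simp only [Pi.smul_apply, Pi.neg_apply, Pi.add_apply, smul_eq_mul]
    field_simp
    ring

lemma ingleton (B0 B1 B2 B3 Y2 Y3 : M4) (p0 : B0.PosSemidef) (p1 : B1.PosSemidef)
    (p2 : B2.PosSemidef) (p3 : B3.PosSemidef)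
    (z02 : (B0 + B2).det = 0) (z03 : (B0 + B3).det = 0) (z12 : (B1 + B2).det = 0)
    (z13 : (B1 + B3).det = 0) (z23 : (B2 + B3).det = 0)
    (n01 : (B0 + B1).det ≠ 0) (n023 : (B0 + B2 + B3).det ≠ 0) (n123 : (B1 + B2 + B3).det ≠ 0)
    (s2 : (Y2 + (2 : ℂ) • B2).det + (-2) * (Y2 + (1 : ℂ) • B2).det + (Y2 + (0 : ℂ) • B2).det ≠ 0)
    (s3 : (Y3 + (2 : ℂ) • B3).det + (-2) * (Y3 + (1 : ℂ) • B3).det + (Y3 + (0 : ℂ) • B3).det ≠ 0) :
    False := by
  obtain ⟨v02, h02, a02, b02⟩ := ker_pair p0 p2 z02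
  obtain ⟨v03, h03, a03, b03⟩ := ker_pair p0 p3 z03
  obtain ⟨v12, h12, a12, b12⟩ := ker_pair p1 p2 z12
  obtain ⟨v13, h13, a13, b13⟩ := ker_pair p1 p3 z13
  obtain ⟨v23, h23, a23, b23⟩ := ker_pair p2 p3 z23
  have t01 : ∀ v : Fin 4 → ℂ, B0 *ᵥ v = 0 → B1 *ᵥ v = 0 → v = 0 := fun v a b =>
    triv n01 (by rw [Matrix.add_mulVec, a, b, add_zero])
  obtain ⟨a, b, e1⟩ := dep n01 h02 h12 a02 a12 (t01 _ a02) (fun h => t01 _ h a12)
    (u := v23) (fun h => s2 (second_diff Y2 B2 _ h (by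
      intro i; fin_cases i <;> simp [b02, b12, a23])))
  obtain ⟨c, d, e2⟩ := dep n01 h03 h13 a03 a13 (t01 _ a03) (fun h => t01 _ h a13)
    (u := v23) (fun h => s3 (second_diff Y3 B3 _ h (by
      intro i; fin_cases i <;> simp [b03, b13, b23])))
  have e3 : a • v02 - c • v03 = d • v13 - b • v12 := by
    have := e1.symm.trans e2
    linear_combination (exp := 1) this
  have e4 : a • v02 - c • v03 = 0 := by
    apply t01
    · simp [Matrix.mulVec_sub, Matrix.mulVec_smul, a02, a03]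
    · rw [e3]; simp [Matrix.mulVec_sub, Matrix.mulVec_smul, a12, a13]
  have e5 : d • v13 - b • v12 = 0 := e3 ▸ e4
  have f1 : a • v02 = 0 := by
    apply triv n023
    have : B3 *ᵥ (a • v02) = 0 := by
      rw [sub_eq_zero.mp e4]; simp [Matrix.mulVec_smul, b03]
    rw [Matrix.add_mulVec, Matrix.add_mulVec, this]
    simp [Matrix.mulVec_smul, a02, b02]
  have f2 : b • v12 = 0 := by
    apply triv n123
    have : B3 *ᵥ (b • v12) = 0 := by
      rw [← sub_eq_zero.mp e5]; simp [Matrix.mulVec_smul, b13]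
    rw [Matrix.add_mulVec, Matrix.add_mulVec, this]
    simp [Matrix.mulVec_smul, a12, b12]
  apply h23
  rw [e1, f1, f2, add_zero]

end Lin

noncomputable def f0 : MvPolynomial (Fin 4) ℕ := X 0 ^ 2 * X 1 ^ 2 + 4 * (X 0 + X 1 + X 2 + X 3) *
  (X 0 * X 1 * X 2 + X 0 * X 1 * X 3 + X 0 * X 2 * X 3 + X 1 * X 2 * X 3)

noncomputable def fR : MvPolynomial (Fin 4) ℝ := MvPolynomial.map (Nat.castRingHom ℝ) f0

lemma fR_eq : fR = X 0 ^ 2 * X 1 ^ 2 + 4 * (X 0 + X 1 + X 2 + X 3) *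
  (X 0 * X 1 * X 2 + X 0 * X 1 * X 3 + X 0 * X 2 * X 3 + X 1 * X 2 * X 3) := by
  simp only [fR, f0, map_add, map_mul, map_pow, MvPolynomial.map_X, map_ofNat]

lemma aeval_fR (z : Fin 4 → ℂ) : aeval z fR = fv z := by
  simp only [fR_eq, fv, map_add, map_mul, map_pow, aeval_X, map_ofNat]

lemma eval_eta {m : ℕ} (A : Fin m → Fin 4 → M4) (z : Fin 4 → ℂ) :
    eval z (eta fun j => pencil (A j)) = eta fun j => ∑ k, z k • A j k := by
  unfold eta
  rw [map_sum]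
  apply Finset.sum_congr rfl
  intro φ _
  rw [map_prod]
  apply Finset.prod_congr rfl
  intro j _
  rw [RingHom.map_det]
  congr 1
  ext a b
  simp [pencil, Matrix.sum_apply, mul_comm]

lemma Mx_lin {m : ℕ} (A : Fin m → Fin 4 → M4) (z : Fin 4 → ℂ) (D : Fin m × Fin 4 → ℂ) :
    Mx (fun j => ∑ k, z k • A j k) D = ∑ k, z k • Mx (fun j => A j k) D := by
  ext a b
  simp only [Mx, Matrix.of_apply, Matrix.sum_apply, Matrix.smul_apply, smul_eq_mul,
    Finset.mul_sum, Finset.sum_mul]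
  rw [Finset.sum_comm]
  apply Finset.sum_congr rfl
  intro k _
  apply Finset.sum_congr rfl
  intro j _
  ring

theorem result : ∃ (l n : ℕ) (f : MvPolynomial (Fin l) ℝ), RealStable f ∧ f.IsHomogeneous n ∧
    (∀ d, 0 ≤ coeff d f) ∧ ∀ c : ℂ, c ≠ 0 →
      ∀ (m : ℕ) (A : Fin m → Fin l → Matrix (Fin n) (Fin n) ℂ), (∀ j k, (A j k).PosSemidef) →
        C c * MvPolynomial.map (algebraMap ℝ ℂ) f ≠ eta fun j => pencil (A j) := by
  refine ⟨4, 4, fR, ⟨?_, fun z hz => by rw [aeval_fR]; exact fv_ne z hz⟩, ?_, ?_, ?_⟩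
  · intro h
    have := aeval_fR ![1, 1, 0, 0]
    rw [h] at this
    simp [fv] at this
  · rw [fR_eq]
    have hX : ∀ i : Fin 4, (X i : MvPolynomial (Fin 4) ℝ).IsHomogeneous 1 :=
      fun i => isHomogeneous_X ℝ i
    have h4 : (4 : MvPolynomial (Fin 4) ℝ).IsHomogeneous 0 := isHomogeneous_C (Fin 4) (4 : ℝ)
    exact (((hX 0).pow 2).mul ((hX 1).pow 2)).add
      ((h4.mul ((((hX 0).add (hX 1)).add (hX 2)).add (hX 3))).mul
        (((((hX 0).mul (hX 1)).mul (hX 2)).add (((hX 0).mul (hX 1)).mul (hX 3))).add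
          (((hX 0).mul (hX 2)).mul (hX 3)) |>.add (((hX 1).mul (hX 2)).mul (hX 3))))
  · intro d
    rw [fR, coeff_map]
    simp
  · intro c hc m A hA h
    let L : (Fin 4 → ℂ) → Fin m → M4 := fun z j => ∑ k, z k • A j k
    have hE : ∀ z, eta (L z) = c * fv z := by
      intro z
      have := congrArg (eval z) h
      rw [eval_eta, map_mul, eval_C, eval_map, ← aeval_def, aeval_fR] at this
      exact this.symm
    have q1 := PD_ne (L ![1, 1, 0, 0]) (L 0) (L 0) 1 0 0 (by simp [hE, fv, hc])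
    have q2 := PD_ne (L ![1, 0, 1, 1]) (L 0) (L 0) 1 0 0 (by simp [hE, fv, hc]; norm_num)
    have q3 := PD_ne (L ![0, 1, 1, 1]) (L 0) (L 0) 1 0 0 (by simp [hE, fv, hc]; norm_num)
    have q4 := PD_ne (L ![1, 1, 2, 0]) (L ![1, 1, 1, 0]) (L ![1, 1, 0, 0]) 1 (-2) 1 (by
      simp only [hE, fv]; simp; intro e; apply hc; linear_combination (1 / 8 : ℂ) * e)
    have q5 := PD_ne (L ![1, 1, 0, 2]) (L ![1, 1, 0, 1]) (L ![1, 1, 0, 0]) 1 (-2) 1 (by
      simp only [hE, fv]; simp; intro e; apply hc; linear_combination (1 / 8 : ℂ) * e)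
    have qq := mul_ne_zero (mul_ne_zero (mul_ne_zero (mul_ne_zero q1 q2) q3) q4) q5
    have hinf : ∀ _ : Fin m × Fin 4, (Set.range Complex.ofReal).Infinite :=
      fun _ => Set.infinite_range_of_injective Complex.ofReal_injective
    have hex := mt (MvPolynomial.funext_set (fun _ => Set.range Complex.ofReal) hinf) qq
    push Not at hex
    obtain ⟨D, hD, hne⟩ := hex
    have hDs : ∀ x, star (D x) = D x := by
      intro x
      obtain ⟨r, hr⟩ := hD x (Set.mem_univ x)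
      rw [← hr]; simp
    simp only [map_mul, map_add, eval_C, eval_PD, map_zero, ne_eq, mul_eq_zero, not_or, one_mul,
      zero_mul, add_zero] at hne
    obtain ⟨⟨⟨⟨r1, r2⟩, r3⟩, r4⟩, r5⟩ := hne
    let B : Fin 4 → M4 := fun k => Mx (fun j => A j k) D
    have hB : ∀ k, (B k).PosSemidef := fun k => Mx_psd _ (fun j => hA j k) D hDs
    have hM : ∀ z, Mx (L z) D = z 0 • B 0 + z 1 • B 1 + z 2 • B 2 + z 3 • B 3 := by
      intro z
      rw [Mx_lin, Fin.sum_univ_four]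
    have hz : ∀ z : Fin 4 → ℂ, (∀ k, 0 ≤ z k) → fv z = 0 →
        (z 0 • B 0 + z 1 • B 1 + z 2 • B 2 + z 3 • B 3).det = 0 := by
      intro z h1 h2
      rw [← hM]
      refine vanish _ (fun j => Matrix.posSemidef_sum _ fun k _ => (hA j k).smul (h1 k))
        (by rw [hE, h2, mul_zero]) D hDs
    simp only [hM] at r1 r2 r3 r4 r5
    refine ingleton (B 0) (B 1) (B 2) (B 3) (B 0 + B 1) (B 0 + B 1) (hB 0) (hB 1) (hB 2) (hB 3)
      ?_ ?_ ?_ ?_ ?_ (by simpa using r1) (by simpa using r2) (by simpa using r3)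
      (by simpa using r4) (by simpa using r5)
    · simpa using hz ![1, 0, 1, 0] (by intro k; fin_cases k <;> simp) (by simp [fv])
    · simpa using hz ![1, 0, 0, 1] (by intro k; fin_cases k <;> simp) (by simp [fv])
    · simpa using hz ![0, 1, 1, 0] (by intro k; fin_cases k <;> simp) (by simp [fv])
    · simpa using hz ![0, 1, 0, 1] (by intro k; fin_cases k <;> simp) (by simp [fv])
    · simpa using hz ![0, 0, 1, 1] (by intro k; fin_cases k <;> simp) (by simp [fv])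

end Pool.Agent.Results.MP_378045_ag.Vamos
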